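import Mathlib

namespace Pool.Agent.Results.MP_727445_co.Upper

/-- The set of non-empty subset sums of `B`. -/
def Sigma (B : Finset ℕ) : Set ℤ := {x | ∃ I ⊆ B, I.Nonempty ∧ x = ∑ b ∈ I, (b : ℤ)}

/-- `S` contains no 3-term arithmetic progression. -/
def NoAP3 (S : Set ℤ) : Prop := ¬ ∃ x d : ℤ, d ≠ 0 ∧ x ∈ S ∧ x + d ∈ S ∧ x + 2 * d ∈ S

/-- `g_3(k)`: the least possible largest element of a `k`-set of positive integers whose non-empty
subset sums contain no 3-term progression. -/
noncomputable def g3 (k : ℕ) : ℕ :=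
  sInf {m | ∃ B : Finset ℕ, B.card = k ∧ (∀ b ∈ B, 0 < b) ∧ IsGreatest (B : Set ℕ) m ∧
    NoAP3 (Sigma B)}

def val (c : ℕ → ℤ) (L : List ℕ) : ℤ := (L.map (fun b => c b * b)).sum

def PL (L : List ℕ) : Prop :=
  ∀ c : ℕ → ℤ, (∀ b, |c b| ≤ 2) → val c L = 0 → ∀ b ∈ L, c b = 0

def msk : List ℕ → ℕ
  | [] => 1
  | b :: L => msk L ||| msk L <<< b ||| msk L <<< (2 * b) ||| msk L <<< (3 * b) |||
      msk L <<< (4 * b)

lemma msk_spec (c : ℕ → ℤ) (hc : ∀ b, |c b| ≤ 2) : ∀ (L : List ℕ), ∃ n : ℕ,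
    (n : ℤ) = val c L + 2 * L.sum ∧ (msk L).testBit n = true
  | [] => ⟨0, by simp [val], by simp [msk]⟩
  | b :: L => by
    obtain ⟨n, h1, h2⟩ := msk_spec c hc L
    have hb := abs_le.1 (hc b)
    have hv : val c (b :: L) = c b * b + val c L := by simp [val]
    obtain ⟨j, hj⟩ : ∃ j : ℕ, (j : ℤ) = c b + 2 := ⟨(c b + 2).toNat, by omega⟩
    refine ⟨j * b + n, by push_cast [List.sum_cons]; rw [hv, hj, h1]; push_cast; ring, ?_⟩
    have : j ≤ 4 := by omega
    simp only [msk, Nat.testBit_or, Nat.testBit_shiftLeft, Bool.or_eq_true]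
    interval_cases j <;> simp [h2]

def good : List ℕ → Bool
  | [] => true
  | b :: L => good L && !(msk L).testBit (2 * L.sum + b) && !(msk L).testBit (2 * L.sum + 2 * b)

lemma val_neg (c : ℕ → ℤ) (L : List ℕ) : val (fun b => -c b) L = -val c L := by
  induction L with
  | nil => simp [val]
  | cons b L ih => simp only [val, List.map_cons, List.sum_cons] at ih ⊢; rw [ih]; ring

lemma good_spec : ∀ L : List ℕ, good L = true → PL L
  | [], _ => fun _ _ _ _ h => by simp at h
  | b :: L, h => by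
    simp only [good, Bool.and_eq_true, Bool.not_eq_true'] at h
    obtain ⟨⟨h0, h1⟩, h2⟩ := h
    intro c hc hv
    have hv' : c b * b + val c L = 0 := by simpa [val] using hv
    have key : ∀ c' : ℕ → ℤ, (∀ b, |c' b| ≤ 2) → c' b * b + val c' L = 0 → 0 ≤ c' b := by
      intro c' hc' e
      by_contra hneg
      obtain ⟨n, e1, e2⟩ := msk_spec c' hc' L
      have hb := abs_le.1 (hc' b)
      have : c' b = -1 ∨ c' b = -2 := by omega
      rcases this with t | t
      · rw [t] at e
        have : n = 2 * L.sum + b := by omega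
        rw [this, h1] at e2; simp at e2
      · rw [t] at e
        have : n = 2 * L.sum + 2 * b := by omega
        rw [this, h2] at e2; simp at e2
    have a1 := key c hc hv'
    have a2 := key (fun b => -c b) (by simpa using hc) (by rw [val_neg]; linarith)
    have hb : c b = 0 := by omega
    intro x hx
    rcases List.mem_cons.1 hx with rfl | hx
    · exact hb
    · exact good_spec L h0 c hc (by simpa [hb] using hv') x hx

lemma step {L : List ℕ} (h : PL L) : PL (1 :: L.map (3 * ·)) := by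
  intro c hc hv
  have e : val c (L.map (3 * ·)) = 3 * val (fun b => c (3 * b)) L := by
    simp only [val, List.map_map, ← List.sum_map_mul_left]
    congr 1
    apply List.map_congr_left
    intro b _
    simp; ring
  have hv' : c 1 + 3 * val (fun b => c (3 * b)) L = 0 := by
    rw [← e]; simpa [val] using hv
  have h1 := abs_le.1 (hc 1)
  have h2 : c 1 = 0 := by omega
  intro x hx
  rcases List.mem_cons.1 hx with rfl | hx
  · exact h2
  · obtain ⟨b, hb, rfl⟩ := List.mem_map.1 hx
    exact h (fun b => c (3 * b)) (fun b => hc _) (by omega) b hb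

lemma noap {L : List ℕ} (hn : L.Nodup) (h : PL L) : NoAP3 (Sigma L.toFinset) := by
  rintro ⟨x, d, hd, ⟨I, hI, -, e1⟩, ⟨J, hJ, -, e2⟩, ⟨K, hK, -, e3⟩⟩
  let c : ℕ → ℤ := fun b =>
    (if b ∈ I then 1 else 0) + (if b ∈ K then 1 else 0) - 2 * (if b ∈ J then 1 else 0)
  have ind : ∀ T ⊆ L.toFinset, ∑ b ∈ L.toFinset, (if b ∈ T then (1 : ℤ) else 0) * b
      = ∑ b ∈ T, (b : ℤ) := by
    intro T hT
    simp only [ite_mul, one_mul, zero_mul, Finset.sum_ite_mem, Finset.inter_eq_right.2 hT]
  have hz := h c (by intro b; simp only [c]; split_ifs <;> norm_num) (by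
    rw [val, ← List.sum_toFinset _ hn]
    simp only [c, sub_mul, add_mul, mul_assoc, Finset.sum_sub_distrib, Finset.sum_add_distrib,
      ← Finset.mul_sum, ind I hI, ind J hJ, ind K hK]
    linarith)
  have : I = J := by
    ext b
    constructor
    · intro hb
      have := hz b (List.mem_toFinset.1 (hI hb))
      simp only [c, hb] at this
      split_ifs at this <;> simp_all
    · intro hb
      have := hz b (List.mem_toFinset.1 (hJ hb))
      simp only [c, hb] at this
      split_ifs at this <;> simp_all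
  rw [this] at e1
  omega

def OK (k m : ℕ) : Prop :=
  ∃ L : List ℕ, L.length = k ∧ L.Nodup ∧ PL L ∧ (∀ b ∈ L, 0 < b ∧ b ≤ m) ∧ m ∈ L

lemma ok_step {k m : ℕ} (h : OK k m) : OK (k + 1) (3 * m) := by
  obtain ⟨L, h1, h2, h3, h4, h5⟩ := h
  refine ⟨1 :: L.map (3 * ·), by simp [h1], ?_, step h3, ?_, ?_⟩
  · rw [List.nodup_cons]
    refine ⟨?_, h2.map (fun a b hab => by simpa using hab)⟩
    simp only [List.mem_map, not_exists, not_and]
    intro b _
    omega
  · intro x hx
    have := (h4 m h5).1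
    rcases List.mem_cons.1 hx with rfl | hx
    · omega
    · obtain ⟨b, hb, rfl⟩ := List.mem_map.1 hx
      have := h4 b hb
      omega
  · exact List.mem_cons_of_mem _ (List.mem_map.2 ⟨m, h5, rfl⟩)

lemma ok_pow {k m : ℕ} (h : OK k m) : ∀ j, OK (k + j) (3 ^ j * m)
  | 0 => by simpa using h
  | j + 1 => by
    have := ok_step (ok_pow h j)
    rwa [← mul_assoc, ← pow_succ'] at this

lemma g3_le {k m : ℕ} (h : OK k m) : g3 k ≤ m := by
  obtain ⟨L, h1, h2, h3, h4, h5⟩ := h
  refine Nat.sInf_le ⟨L.toFinset, by rw [List.toFinset_card_of_nodup h2, h1], ?_, ⟨?_, ?_⟩,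
    noap h2 h3⟩
  · exact fun b hb => (h4 b (List.mem_toFinset.1 hb)).1
  · simpa using h5
  · exact fun b hb => (h4 b (List.mem_toFinset.1 hb)).2

lemma ok3 : OK 3 8 := ⟨[8, 7, 5], rfl, by decide, good_spec _ (by decide +kernel), by decide,
  by decide⟩

lemma ok12 : OK 12 101598 :=
  ⟨[101598, 101596, 101592, 101589, 101575, 101537, 101430, 101123, 100219, 97583, 89889, 67114],
    rfl, by decide, good_spec _ (by decide +kernel), by decide, by decide⟩

theorem result : (∀ k, 3 ≤ k → 0 < g3 k ∧ 9 * g3 k ≤ 8 * 3 ^ (k - 1)) ∧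
    ∀ k, 12 ≤ k → 1000 * g3 k ≤ 574 * 3 ^ (k - 1) := by
  constructor
  · intro k hk
    obtain ⟨j, rfl⟩ := Nat.exists_eq_add_of_le hk
    have h := ok_pow ok3 j
    constructor
    · obtain ⟨L, h1, h2, h3, h4, h5⟩ := h
      have hne : Set.Nonempty {m | ∃ B : Finset ℕ, B.card = 3 + j ∧ (∀ b ∈ B, 0 < b) ∧
          IsGreatest (B : Set ℕ) m ∧ NoAP3 (Sigma B)} :=
        ⟨3 ^ j * 8, L.toFinset, by rw [List.toFinset_card_of_nodup h2, h1],
          fun b hb => (h4 b (List.mem_toFinset.1 hb)).1,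
          ⟨by simpa using h5, fun b hb => (h4 b (List.mem_toFinset.1 hb)).2⟩, noap h2 h3⟩
      obtain ⟨B, -, hp, hg, -⟩ := Nat.sInf_mem hne
      exact hp _ hg.1
    · have := g3_le h
      rw [show 3 + j - 1 = j + 2 by omega, pow_add]
      omega
  · intro k hk
    obtain ⟨j, rfl⟩ := Nat.exists_eq_add_of_le hk
    have := g3_le (ok_pow ok12 j)
    rw [show 12 + j - 1 = j + 11 by omega, pow_add]
    omega

end Pool.Agent.Results.MP_727445_co.Upper
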